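import Pool.Agent.Q44.SA.Def

/-!
# Project PG: local Zariski closures of the rational points and automorphisms (definitions)

`X = V(I)` is a projective variety over a number field `K` and `φ s`, `s` in a finite set, are automorphisms of `X` with
inverses `ψ s`.
-/

set_option autoImplicit false

namespace Pool.Agent.Q44.PG

open MvPolynomial Pool.Agent.Q44.SA

variable {K : Type} [Field K] {n : ℕ}

/-- The ideal of a set `Y` of points of the projective space: the polynomials which vanish at all multiples of the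
vectors in `Y`. -/
def Van (Y : Set (Fin n → K)) : Ideal (MvPolynomial (Fin n) K) where
  carrier := {f | ∀ y ∈ Y, ∀ t : K, eval (t • y) f = 0}
  add_mem' := by
    intro f g hf hg y hy t
    rw [map_add, hf y hy t, hg y hy t, add_zero]
  zero_mem' := fun y _ t => map_zero _
  smul_mem' := by
    intro c f hf y hy t
    rw [smul_eq_mul, map_mul, hf y hy t, mul_zero]

/-- The rational points of `V(I)` which are zeros of `J`. -/
def Pts (I J : Ideal (MvPolynomial (Fin n) K)) : Set (Fin n → K) :=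
  {y | Pt (RingHom.id K) I y ∧ ∀ f ∈ J, eval y f = 0}

/-- The ideal of the image under `φ` of the closed subset with the ideal `J`. -/
noncomputable def Im {I : Ideal (MvPolynomial (Fin n) K)} (φ : Mor I) (J : Ideal (MvPolynomial (Fin n) K)) :
    Ideal (MvPolynomial (Fin n) K) :=
  ⨅ l, J.comap (bind₁ (φ.F l)).toRingHom

/-- The ideal of the local Zariski closure of the set of rational points of `V(I)` at the point `x` of the product of
the projective spaces over the fields `L i`: the polynomials which vanish at (all multiples of) all rational points of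
`V(I)` in a neighbourhood of `x`. -/
def Clos {r : ℕ} {L : Fin r → Type} [∀ i, NontriviallyNormedField (L i)] (σ : ∀ i, K →+* L i)
    (I : Ideal (MvPolynomial (Fin n) K)) (x : ∀ i, Fin n → L i) : Ideal (MvPolynomial (Fin n) K) where
  carrier := {f | ∃ U : ∀ i, Set (Fin n → L i), (∀ i, U i ∈ nhds (x i)) ∧
    ∀ y : Fin n → K, Pt (RingHom.id K) I y → (∀ i, ∃ c : L i, c ≠ 0 ∧ c • (σ i ∘ y) ∈ U i) →
      ∀ t : K, eval (t • y) f = 0}
  add_mem' := by
    rintro f g ⟨U, hU, hf⟩ ⟨W, hW, hg⟩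
    refine ⟨fun i => U i ∩ W i, fun i => Filter.inter_mem (hU i) (hW i), fun y hy h t => ?_⟩
    have h1 := hf y hy (fun i => (h i).imp fun _ hc => ⟨hc.1, hc.2.1⟩) t
    have h2 := hg y hy (fun i => (h i).imp fun _ hc => ⟨hc.1, hc.2.2⟩) t
    rw [map_add, h1, h2, add_zero]
  zero_mem' := ⟨fun _ => Set.univ, fun _ => Filter.univ_mem, fun y _ _ t => map_zero _⟩
  smul_mem' := by
    rintro c f ⟨U, hU, hf⟩
    refine ⟨U, hU, fun y hy h t => ?_⟩
    rw [smul_eq_mul, map_mul, hf y hy h t, mul_zero]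

/-- The closed subset with the ideal `J` has only finitely many images under the group generated by the
automorphisms `φ s` (with inverses `ψ s`). -/
def FinOrb {I : Ideal (MvPolynomial (Fin n) K)} {S : Type} (φ ψ : S → Mor I) (J : Ideal (MvPolynomial (Fin n) K)) :
    Prop :=
  ∃ 𝒥 : Set (Ideal (MvPolynomial (Fin n) K)), 𝒥.Finite ∧ J ∈ 𝒥 ∧
    ∀ s, ∀ J' ∈ 𝒥, Im (φ s) J' ∈ 𝒥 ∧ Im (ψ s) J' ∈ 𝒥

/-- `𝔭` is the ideal of a periodic irreducible closed subset of `V(I)` with a dense set of rational points. -/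
def Per {I : Ideal (MvPolynomial (Fin n) K)} {S : Type} (φ ψ : S → Mor I) (𝔭 : Ideal (MvPolynomial (Fin n) K)) :
    Prop :=
  𝔭.IsPrime ∧ I ≤ 𝔭 ∧ Homog 𝔭 ∧ 𝔭 = Van (Pts I 𝔭) ∧ FinOrb φ ψ 𝔭

/-- norm one multiples of `σ i ∘ y` and `x i` have distance at most `ε`, for all `i` -/
def Cl {r : ℕ} {L : Fin r → Type} [∀ i, NontriviallyNormedField (L i)] (σ : ∀ i, K →+* L i) (ε : ℝ)
    (y : Fin n → K) (x : ∀ i, Fin n → L i) : Prop :=
  ∀ i, ∃ c c' : L i, ‖c • (σ i ∘ y)‖ = 1 ∧ ‖c' • x i‖ = 1 ∧ ‖c • (σ i ∘ y) - c' • x i‖ ≤ ε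

/-- the rational points of `V(I)` at distance at most `ε` from `x` -/
def Ball {r : ℕ} {L : Fin r → Type} [∀ i, NontriviallyNormedField (L i)] (σ : ∀ i, K →+* L i)
    (I : Ideal (MvPolynomial (Fin n) K)) (ε : ℝ) (x : ∀ i, Fin n → L i) : Set (Fin n → K) :=
  {y | Pt (RingHom.id K) I y ∧ Cl σ ε y x}

end Pool.Agent.Q44.PG
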