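import Pool.Agent.Q44.PG.Def
import Pool.Agent.Q190.SA.Bas

/-!
# Project PG: statements

THEOREM. Let `X = V(I)` be a projective variety over a number field `K`, and let `Γ` be a finitely generated group of
automorphisms of `X` over `K`. There is `N > 0` such that for all finite places `v` not dividing `N` (and finitely many of
them simultaneously) the local Zariski closures `Z_x` of the set of rational points have only finitely many images
under `Γ`, and so have their irreducible components. So if there are only finitely many periodic irreducible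
closed subsets with dense rational points, then there are only finitely many sets `Z_x`; and `Z_P = X` for each rational
point `P` which is not on a proper periodic closed subset.

Idea. At the places of good reduction the automorphisms permute the finitely many balls of radius `ε`, and the
ideals of the sets of rational points in the balls; every `Z_x` is the closure of the set of rational points in
one of the balls.

Useful: `Pool/Agent/Q190/SA/Bas.lean` (`relH`, `relP`, `rel_pt`, `rel_inv`, `rel_unique`, `rel_smul`, `pt_smul`, `bind_at`,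
`eval2_smul`), `Pool/Agent/Q190/SA/NE.lean` (`nearM : S_nearM`), `Pool/Agent/Q190/SA/GD.lean` (good reduction).
-/

set_option autoImplicit false

namespace Pool.Agent.Q44.PG

open MvPolynomial Pool.Agent.Q44.SA

/-- **P_van.** Proof: `f (t • y) = ∑ t ^ d * f_d (y)` for all `t` in the infinite field `K`, so all `f_d (y) = 0`. -/
def P_van : Prop := ∀ (K : Type) [Field K] [CharZero K] (n : ℕ) (I : Ideal (MvPolynomial (Fin n) K)), Homog I →
  ∀ Y : Set (Fin n → K), (∀ y ∈ Y, Pt (RingHom.id K) I y) →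
  Homog (Van Y) ∧ (Van Y).radical = Van Y ∧ I ≤ Van Y ∧ Van (Pts I (Van Y)) = Van Y ∧
    ∀ y ∈ Y, Van Y ≤ Van {y} ∧ (Van {y} : Ideal (MvPolynomial (Fin n) K)).IsPrime

/-- **P_im.** Proof: `f ∈ Im φ (Van Y)` means `f (F l (t • y)) = 0` for all `l`, `t`, `y ∈ Y`, where `F l (t • y) = t ^ d • F l (y)`. If
`F l (y) ≠ 0` then the polynomial `u ↦ f (u • F l (y))` vanishes at all `u = t ^ d` (infinitely many values), so it is zero.
Conversely for `F l (y) = 0` use `f 0 = 0` (from `f (0 • y') = 0` for the image `y'` of `y`). -/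
def P_im : Prop := ∀ (K : Type) [Field K] [CharZero K] (n : ℕ) (I : Ideal (MvPolynomial (Fin n) K)), Homog I →
  ∀ (φ : Mor I) (Y : Set (Fin n → K)), (∀ y ∈ Y, Pt (RingHom.id K) I y) →
  Im φ (Van Y) = Van {y' | ∃ y ∈ Y, φ.Rel (RingHom.id K) y y'}

/-- **P_im2.** Proof: P_im twice; the elements `y''` with `φ.Rel y y'`, `ψ.Rel y' y''` are the multiples of `y` by nonzero
scalars (relH, rel_unique, rel_smul), and `Van` does not change. -/
def P_im2 : Prop := ∀ (K : Type) [Field K] [CharZero K] (n : ℕ) (I : Ideal (MvPolynomial (Fin n) K)), Homog I →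
  ∀ (φ ψ : Mor I), LeftInv ψ φ → ∀ (Y : Set (Fin n → K)), (∀ y ∈ Y, Pt (RingHom.id K) I y) →
  Im ψ (Im φ (Van Y)) = Van Y

/-- **P_comp.** Irreducible components. Let `𝒱` be the set of the ideals `Van Y` with `Y` a set of points of `V(I)`.
(1) Let `J = Van Y`, and let `𝔮 1, ..., 𝔮 k` be its minimal primes (finitely many, `J` is their intersection since it
is radical). Let `Y i` be the set of the `y ∈ Y` with `𝔮 i ≤ Van {y}`. Since `Van {y}` is prime, `Y` is the union of the
`Y i`, and `Van Y` the intersection of the `Van (Y i)`. As `𝔮 j` is prime, `Van (Y i) ≤ 𝔮 j` for some `i`, and `𝔮 i ≤ Van (Y i)`; so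
`i = j` and `𝔮 j = Van (Y j) ∈ 𝒱`. (2) `Im φ` is monotone and commutes with intersections; on `𝒱` it has the inverse `Im ψ`
(P_im, P_im2 for both orders). If `𝔮 ∈ 𝒱` is prime, so is `A = Im φ 𝔮`: its minimal primes `𝔯 i` are in `𝒱`,
`𝔮 = Im ψ A` is the intersection of the `Im ψ (𝔯 i)`, so `Im ψ (𝔯 i) ≤ 𝔮` for some `i`, so `Im ψ (𝔯 i) = 𝔮`, `𝔯 i = A`. (3) `Im φ` sends
the minimal primes of `J ∈ 𝒱` to minimal primes of `Im φ J`: if `Im φ J ≤ 𝔯 ≤ Im φ 𝔮` and `𝔯' ≤ 𝔯` is a minimal prime of `Im φ J`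
(in `𝒱`), then `J ≤ Im ψ 𝔯' ≤ 𝔮`, `Im ψ 𝔯'` is prime, so equal to `𝔮`, so `𝔯' = Im φ 𝔮 = 𝔯`. (4) So the union of the sets of minimal
primes of the elements of `𝒥` is a finite set stable under all `Im (φ s)`, `Im (ψ s)`. -/
def P_comp : Prop := ∀ (K : Type) [Field K] [CharZero K] (n : ℕ) (I : Ideal (MvPolynomial (Fin n) K)), Homog I →
  ∀ (S : Type) (φ ψ : S → Mor I), (∀ s, LeftInv (ψ s) (φ s)) → (∀ s, LeftInv (φ s) (ψ s)) →
  ∀ 𝒥 : Set (Ideal (MvPolynomial (Fin n) K)), 𝒥.Finite →
  (∀ J ∈ 𝒥, ∃ Y : Set (Fin n → K), (∀ y ∈ Y, Pt (RingHom.id K) I y) ∧ J = Van Y) →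
  (∀ s, ∀ J' ∈ 𝒥, Im (φ s) J' ∈ 𝒥 ∧ Im (ψ s) J' ∈ 𝒥) → ∀ J ∈ 𝒥, ∀ 𝔭 ∈ J.minimalPrimes, Per φ ψ 𝔭

/-- **P_fin.** There are finitely many balls. Proof: the product over `i` of the unit spheres of `Fin n → L i` is compact, so
it is covered by finitely many balls of radius `ε`; choose a point in each ball which contains normalised
multiples of a rational point. (Ultrametric inequality; the unit vectors `c • (σ i ∘ y)` for a given `y` differ by scalars
of norm one.) -/
def P_fin : Prop := ∀ (K : Type) [Field K] (n r : ℕ) (L : Fin r → Type) [∀ i, NontriviallyNormedField (L i)]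
  [∀ i, IsUltrametricDist (L i)] [∀ i, ProperSpace (L i)] (σ : ∀ i, K →+* L i)
  (I : Ideal (MvPolynomial (Fin n) K)) (ε : ℝ), 0 < ε →
  ∃ A : Finset (Fin n → K), (∀ a ∈ A, Pt (RingHom.id K) I a) ∧
    ∀ y, Pt (RingHom.id K) I y → ∃ a ∈ A, Cl σ ε y fun i => σ i ∘ a

/-- **P_cl.** `Cl` is an equivalence relation, and balls with common points are equal. -/
def P_cl : Prop := ∀ (K : Type) [Field K] (n r : ℕ) (L : Fin r → Type) [∀ i, NontriviallyNormedField (L i)]
  [∀ i, IsUltrametricDist (L i)] (σ : ∀ i, K →+* L i) (I : Ideal (MvPolynomial (Fin n) K)) (ε : ℝ), 0 < ε →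
  (∀ y : Fin n → K, y ≠ 0 → Cl σ ε y fun i => σ i ∘ y) ∧
  ∀ (x : ∀ i, Fin n → L i) (y : Fin n → K), y ∈ Ball σ I ε x → Ball σ I ε x = Ball σ I ε fun i => σ i ∘ y

/-- **P_ball.** The automorphisms map balls to balls. Proof: if `y'` is in the ball of `y`, and `z`, `z'` are the
images, then `z'` is in the ball of `z` by `S_nearM` (`Pool.Agent.Q190.SA.nearM`) for the map `φ`. Conversely let `z'` be in the ball of `z`
and `y'` an image of `z'` under `ψ`; then `y'` is in the ball of `y` (S_nearM for `ψ`), and `φ.Rel y' z'`. So the set in P_im for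
`Y = Ball σ I ε (σ ∘ y)` is the ball of `z`. -/
def P_ball : Prop := ∀ (K : Type) [Field K] [CharZero K] (n r : ℕ) (L : Fin r → Type)
  [∀ i, NontriviallyNormedField (L i)] [∀ i, IsUltrametricDist (L i)] (σ : ∀ i, K →+* L i)
  (I : Ideal (MvPolynomial (Fin n) K)), Homog I → ∀ (φ ψ : Mor I), LeftInv ψ φ → LeftInv φ ψ →
  (∀ i, GoodM φ (σ i)) → (∀ i, GoodM ψ (σ i)) → ∀ ε : ℝ, 0 < ε → ε < 1 →
  ∀ y z : Fin n → K, Pt (RingHom.id K) I y → φ.Rel (RingHom.id K) y z →
  Im φ (Van (Ball σ I ε fun i => σ i ∘ y)) = Van (Ball σ I ε fun i => σ i ∘ z)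

/-- **P_clos.** Every local closure is the closure of the set of rational points in a ball. Proof: if
`f ∈ Van (Ball σ I ε x)`, `ε < 1`, then `f ∈ Clos σ I x` with `U i` the open ball of radius `ε ‖x i‖` (multiply by `c'` with `‖c' • x i‖ = 1`).
Conversely for `f ∈ Clos σ I x` there is `ε > 0` such that `f ∈ Van (Ball σ I ε' x)` for all `ε' ≤ ε`. The ideal `Clos σ I x` is finitely
generated, and `Van (Ball σ I ε x)` gets larger if `ε` gets smaller. -/
def P_clos : Prop := ∀ (K : Type) [Field K] (n r : ℕ) (L : Fin r → Type) [∀ i, NontriviallyNormedField (L i)]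
  [∀ i, IsUltrametricDist (L i)] (σ : ∀ i, K →+* L i) (I : Ideal (MvPolynomial (Fin n) K))
  (x : ∀ i, Fin n → L i), (∀ i, x i ≠ 0) → ∃ ε : ℝ, 0 < ε ∧ ε < 1 ∧ Clos σ I x = Van (Ball σ I ε x)

/-- **P_main.** Proof: let `ε` be as in P_clos and `A` as in P_fin; `𝒥 = {⊤} ∪ {Van (Ball σ I ε (σ ∘ a)) | a ∈ A}`. By P_cl
every ball which contains a rational point is one of these, and an empty ball has the ideal `⊤`. By
P_ball `𝒥` is stable under `Im (φ s)`, `Im (ψ s)` (`Im φ ⊤ = ⊤`), and `Clos σ I x ∈ 𝒥`. Then P_comp, and `Clos σ I x` is radical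
(P_van), so the intersection of its minimal primes. -/
def P_main : Prop := ∀ (K : Type) [Field K] [NumberField K] (n : ℕ) (I : Ideal (MvPolynomial (Fin n) K)), Homog I →
  ∀ (S : Type) [Finite S] (φ ψ : S → Mor I), (∀ s, LeftInv (ψ s) (φ s)) → (∀ s, LeftInv (φ s) (ψ s)) →
  ∀ (r : ℕ) (L : Fin r → Type) [∀ i, NontriviallyNormedField (L i)] [∀ i, IsUltrametricDist (L i)]
    [∀ i, ProperSpace (L i)] (σ : ∀ i, K →+* L i), (∀ s i, GoodM (φ s) (σ i)) → (∀ s i, GoodM (ψ s) (σ i)) →
  ∀ x : ∀ i, Fin n → L i, (∀ i, x i ≠ 0) →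
    FinOrb φ ψ (Clos σ I x) ∧ (∀ 𝔭 ∈ (Clos σ I x).minimalPrimes, Per φ ψ 𝔭) ∧
    Clos σ I x = sInf (Clos σ I x).minimalPrimes

end Pool.Agent.Q44.PG
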